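import Pool.Agent.MP_5c28a4_al.H89.Spec

set_option autoImplicit false

namespace Pool.Agent.MP_5c28a4_al.H88

open Pool.Agent.Burnside6 Pool.Agent.MP_5c28a4_al.H89

variable {G : Type} [Group G] {X : Nm G}

/-- a discrete line invariant under `u` -/
structure IsLine (X : Nm G) (u : G) (pt : ℤ → G) (idx : G → ℤ) : Prop where
  zero : pt 0 = 1
  sh : ∀ a n : ℤ, pt (n + a * X.ν u) = u ^ a * pt n
  step : ∀ n, X.d (pt n) (pt (n + 1)) ≤ 1
  lo : ∀ n n', ((n' - n).natAbs : ℝ) * (X.τ u / X.ν u) ≤ X.d (pt n) (pt n') + 32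
  hi : ∀ n n', (X.d (pt n) (pt n') : ℝ) ≤ (n' - n).natAbs * (X.τ u / X.ν u) + 48
  sec : ∀ n, pt (idx (pt n)) = pt n
  eqv : ∀ a n : ℤ, idx (u ^ a * pt n) = idx (pt n) + a * X.ν u

theorem nu_bounds {u : G} (ht : Tame X u 1 16) : X.τ u ≤ X.ν u ∧ (X.ν u : ℝ) ≤ X.τ u + 16 :=
  ⟨by simpa using X.tau_le_nu u 1, by simpa [Nm.d_one] using ht 1⟩

theorem theta_ge {u : G} (ht : Tame X u 1 16) (hu : 16 ≤ X.τ u) : 1 / 2 ≤ X.τ u / X.ν u := by
  obtain ⟨h1, h2⟩ := nu_bounds ht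
  rw [le_div_iff₀ (by linarith)]
  linarith

theorem exists_line {u : G} (ht : Tame X u 1 16) (hu : 16 ≤ X.τ u) :
    ∃ pt idx, IsLine X u pt idx := by
  obtain ⟨b1, b2⟩ := nu_bounds ht
  have hθ := theta_ge ht hu
  obtain ⟨c, c0, cl, cs⟩ := X.exists_path (X.ν u) 1 u (X.d_one u).le
  have hl : X.d (c 0) (c (X.ν u)) = X.ν u := by rw [c0, cl, X.d_one]
  obtain ⟨l, hL⟩ : ∃ l, l = X.ν u := ⟨_, rfl⟩
  rw [← hL] at b1 b2 hθ cl hl
  have l0 : (0 : ℝ) < l := by linarith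
  have l1 : (0 : ℤ) < l := by exact_mod_cast l0
  obtain ⟨θ, hT⟩ : ∃ θ, θ = X.τ u / l := ⟨_, rfl⟩
  have hτ : X.τ u = θ * l := by rw [hT]; field_simp
  rw [← hT] at hθ
  have θ1 : θ ≤ 1 := by rw [hT, div_le_one l0]; exact b1
  have hr : ∀ r : ℝ, r ≤ l → r ≤ r * θ + 16 := fun r h => by nlinarith
  set pt : ℤ → G := fun n => u ^ (n / l) * c (n % l).toNat with hpt
  have k0 : ∀ (a : ℤ) (ρ : ℕ), ρ < l → pt (ρ + a * l) = u ^ a * c ρ := by
    intro a ρ h
    have h' : (ρ : ℤ) < l := by exact_mod_cast h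
    simp only [hpt]
    rw [Int.add_mul_ediv_right _ _ l1.ne', Int.add_mul_emod_self_right,
      Int.ediv_eq_zero_of_lt (by omega) h', Int.emod_eq_of_lt (by omega) h', zero_add,
      Int.toNat_natCast]
  have k1 : ∀ (a : ℤ) (ρ : ℕ), ρ ≤ l → pt (ρ + a * l) = u ^ a * c ρ := by
    intro a ρ h
    rcases h.lt_or_eq with h | rfl
    · exact k0 a ρ h
    · have := k0 (a + 1) 0 (by omega)
      rw [c0, mul_one, zpow_add_one] at this
      rw [cl, ← this]
      congr 1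
      push_cast
      ring
  have k2 : ∀ n : ℤ, ∃ (a : ℤ) (ρ : ℕ), ρ < l ∧ n = ρ + a * l := fun n => by
    have h1 := Int.emod_nonneg n l1.ne'
    have h2 := Int.emod_lt_of_pos n l1
    refine ⟨n / l, (n % l).toNat, by omega, ?_⟩
    rw [Int.toNat_of_nonneg h1, Int.emod_add_ediv_mul]
  have sh : ∀ a n : ℤ, pt (n + a * l) = u ^ a * pt n := fun a n => by
    obtain ⟨b, ρ, h, rfl⟩ := k2 n
    rw [show (ρ : ℤ) + b * l + a * l = ρ + (a + b) * l by ring, k0 _ _ h, k0 _ _ h, zpow_add,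
      mul_assoc]
  have e1 : ∀ (a : ℤ) (ρ : ℕ), ρ ≤ l → X.d (u ^ a * 1) (u ^ a * c ρ) = ρ := fun a ρ h => by
    rw [Nm.d_mul, ← c0, X.geo_d cs hl (Nat.zero_le ρ) h, Nat.sub_zero]
  have e2 : ∀ (a : ℤ) (ρ : ℕ), ρ ≤ l → X.d (u ^ a * c ρ) (u ^ (a + 1) * 1) + ρ = l :=
    fun a ρ h => by
      rw [zpow_add_one, mul_one, Nm.d_mul]
      have := X.geo_d cs hl h le_rfl
      rw [cl] at this
      omega
  have e3 : ∀ a b : ℤ, X.d (u ^ a * 1) (u ^ b * 1) = X.d 1 (u ^ (b - a) * 1) := fun a b => by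
    rw [← X.d_mul (u ^ a) 1]; congr 1; group
  have main : ∀ n n' : ℤ, n ≤ n' → ((n' - n : ℤ) : ℝ) * θ ≤ X.d (pt n) (pt n') + 32 ∧
      (X.d (pt n) (pt n') : ℝ) ≤ (n' - n : ℤ) * θ + 48 := by
    intro n n' h
    obtain ⟨a, ρ, h1, rfl⟩ := k2 n
    obtain ⟨a', ρ', h2, rfl⟩ := k2 n'
    have haa : a ≤ a' := by
      by_contra hc
      have := Int.mul_le_mul_of_nonneg_right (show a' + 1 ≤ a by omega) l1.le
      rw [add_mul] at this
      omega
    rw [k0 _ _ h1, k0 _ _ h2]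
    have r1 : (ρ : ℝ) ≤ l := by exact_mod_cast h1.le
    have r2 : (ρ' : ℝ) ≤ l := by exact_mod_cast h2.le
    have r3 : (0 : ℝ) ≤ ρ := Nat.cast_nonneg _
    have r4 : (0 : ℝ) ≤ ρ' := Nat.cast_nonneg _
    have f1 := e1 a ρ h1.le
    have f2 := e2 a ρ h1.le
    have f3 := e1 a' ρ' h2.le
    have f4 := e2 a' ρ' h2.le
    constructor
    · have t1 := X.tri (u ^ a * 1) (u ^ a * c ρ) (u ^ (a' + 1) * 1)
      have t2 := X.tri (u ^ a * c ρ) (u ^ a' * c ρ') (u ^ (a' + 1) * 1)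
      have t3 := tau_le_zpow X u 1 (a' + 1 - a)
      rw [← e3, abs_of_nonneg (by exact_mod_cast (by omega)), hτ] at t3
      have t4 : (X.d (u ^ a * 1) (u ^ (a' + 1) * 1) : ℝ) + ρ'
          ≤ ρ + X.d (u ^ a * c ρ) (u ^ a' * c ρ') + l := by exact_mod_cast (by omega)
      have := hr ρ r1
      have := hr (l - ρ') (by linarith)
      push_cast at t3 ⊢
      linarith
    · rcases haa.eq_or_lt with rfl | haa
      · have h3 : ρ ≤ ρ' := by omega
        rw [Nm.d_mul, X.geo_d cs hl h3 h2.le, Nat.cast_sub h3]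
        have := hr (ρ' - ρ) (by linarith)
        push_cast
        linarith
      · have t1 := X.tri (u ^ a * c ρ) (u ^ (a + 1) * 1) (u ^ a' * c ρ')
        have t2 := X.tri (u ^ (a + 1) * 1) (u ^ a' * 1) (u ^ a' * c ρ')
        have t3 := ht.zpow (a' - (a + 1))
        rw [← e3, abs_of_nonneg (by exact_mod_cast (by omega)), hτ] at t3
        have t4 : (X.d (u ^ a * c ρ) (u ^ a' * c ρ') : ℝ) + ρ
            ≤ l + X.d (u ^ (a + 1) * 1) (u ^ a' * 1) + ρ' := by exact_mod_cast (by omega)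
        have := hr ρ' r2
        have := hr (l - ρ) (by linarith)
        push_cast at t3 ⊢
        linarith
  have main' : ∀ n n' : ℤ, ((n' - n).natAbs : ℝ) * θ ≤ X.d (pt n) (pt n') + 32 ∧
      (X.d (pt n) (pt n') : ℝ) ≤ (n' - n).natAbs * θ + 48 := by
    intro n n'
    rcases le_total n n' with h | h
    · rw [Nat.cast_natAbs, abs_of_nonneg (sub_nonneg.2 h)]
      exact main n n' h
    · rw [Nat.cast_natAbs, abs_of_nonpos (sub_nonpos.2 h), neg_sub, X.comm]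
      exact main n' n h
  have least : ∀ n, IsLeast {m | pt m = pt n} (sInf {m | pt m = pt n}) := fun n => by
    have hb : BddBelow {m | pt m = pt n} := ⟨n - 64, fun m hm => by
      have := (main' m n).1
      rw [show pt m = pt n from hm, Nm.d_self] at this
      have h1 : ((n - m).natAbs : ℝ) ≤ 64 := by
        have : (0 : ℝ) ≤ (n - m).natAbs := Nat.cast_nonneg _
        push_cast at *
        nlinarith
      have h2 : (n - m).natAbs ≤ 64 := by exact_mod_cast h1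
      omega⟩
    exact ⟨Int.csInf_mem ⟨n, rfl⟩ hb, fun m hm => csInf_le hb hm⟩
  subst hL hT
  refine ⟨pt, fun y => sInf {m | pt m = y}, by simpa [c0] using k1 0 0 (Nat.zero_le _), sh,
    fun n => ?_, fun n n' => (main' n n').1, fun n n' => (main' n n').2, fun n => (least n).1,
    fun a n => IsLeast.csInf_eq ⟨?_, fun m hm => ?_⟩⟩
  · obtain ⟨a, ρ, h, rfl⟩ := k2 n
    rw [show (ρ : ℤ) + a * X.ν u + 1 = (ρ + 1 : ℕ) + a * X.ν u by push_cast; ring, k1 _ _ h,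
      k0 _ _ h, Nm.d_mul]
    exact cs ρ
  · exact (sh _ _).trans (by rw [(least n).1])
  · have h1 : pt (m + -a * X.ν u) = pt n := by
      rw [sh, show pt m = u ^ a * pt n from hm, zpow_neg, inv_mul_cancel_left]
    have := (least n).2 h1
    linarith

namespace IsLine

variable {u : G} {pt : ℤ → G} {idx : G → ℤ} (h : IsLine X u pt idx)
include h

theorem btw {n m n' : ℤ} (e : (m - n).natAbs + (n' - m).natAbs = (n' - n).natAbs) :
    X.d (pt n) (pt m) + X.d (pt m) (pt n') ≤ X.d (pt n) (pt n') + 128 := by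
  have h1 := h.hi n m
  have h2 := h.hi m n'
  have h3 := h.lo n n'
  rw [← e, Nat.cast_add, add_mul] at h3
  have : (X.d (pt n) (pt m) : ℝ) + X.d (pt m) (pt n') ≤ X.d (pt n) (pt n') + 128 := by linarith
  exact_mod_cast this

theorem on (hu : 0 < X.ν u) (n n' : ℤ) :
    ∃ a b : ℤ, On X (u ^ a * 1) (u ^ b * 1) (pt n) (pt n') 176 := by
  wlog hn : n ≤ n' generalizing n n'
  · obtain ⟨a, b, h1⟩ := this n' n (by omega)
    exact ⟨b, a, h1.symm⟩
  obtain ⟨k, k1, k2⟩ : ∃ k : ℕ, -(k : ℤ) ≤ n ∧ n' ≤ k := ⟨n.natAbs + n'.natAbs, by omega, by omega⟩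
  have k3 : (k : ℤ) ≤ k * X.ν u := by exact_mod_cast Nat.le_mul_of_pos_right k hu
  refine ⟨-k, k, ?_⟩
  rw [← h.zero, ← h.sh, ← h.sh, zero_add, zero_add, neg_mul]
  generalize (k : ℤ) * X.ν u = K at k3
  have h1 := h.hi (-K) n
  have h2 := h.hi n n'
  have h3 := h.hi n' K
  have h4 := h.lo (-K) K
  rw [show (K - -K).natAbs = (n - -K).natAbs + (n' - n).natAbs + (K - n').natAbs by omega,
    Nat.cast_add, Nat.cast_add, add_mul, add_mul] at h4
  have : (X.d (pt (-K)) (pt n) : ℝ) + X.d (pt n) (pt n') + X.d (pt n') (pt K)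
      ≤ X.d (pt (-K)) (pt K) + 176 := by linarith
  unfold On
  exact_mod_cast this

theorem mid {P : ℕ} (hP : 0 < P) (h1 : 128 ≤ P) (n n' : ℤ)
    (hd : 35 ≤ (X.scale P hP).d (pt n) (pt n')) : ∃ m, (X.scale P hP).d (pt n) (pt m) = 35 ∧
      (X.scale P hP).d (pt n) (pt m) + (X.scale P hP).d (pt m) (pt n')
        ≤ (X.scale P hP).d (pt n) (pt n') + 32 := by
  obtain ⟨s, hs, e⟩ : ∃ s : ℤ, (s = 1 ∨ s = -1) ∧ n + s * (n' - n).natAbs = n' := by
    rcases le_total n n' with h | h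
    · exact ⟨1, Or.inl rfl, by omega⟩
    · exact ⟨-1, Or.inr rfl, by omega⟩
  obtain ⟨i, i1, i2⟩ := Nm.ivt1 (f := fun i => (X.scale P hP).d (pt n) (pt (n + s * i)))
    (t := 35) (j := (n' - n).natAbs) (fun i => by
      refine ((X.scale P hP).tri _ (pt (n + s * i)) _).trans (Nat.add_le_add_left ?_ _)
      rw [Nm.scale_d_le]
      rcases hs with rfl | rfl
      · rw [show n + 1 * ((i + 1 : ℕ) : ℤ) = n + 1 * i + 1 by push_cast; ring]
        exact (h.step _).trans (by omega)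
      · rw [show n + -1 * (i : ℤ) = n + -1 * ((i + 1 : ℕ) : ℤ) + 1 by push_cast; ring, X.comm]
        exact (h.step _).trans (by omega)) (by simp) (by rw [e]; exact hd)
  refine ⟨_, i2, ?_⟩
  have b := h.btw (n := n) (m := n + s * i) (n' := n') (by rcases hs with rfl | rfl <;> omega)
  have b1 := (X.scale_d_bounds P hP (pt n) (pt (n + s * i))).2
  have b2 := (X.scale_d_bounds P hP (pt (n + s * i)) (pt n')).2
  have b3 := (X.scale_d_bounds P hP (pt n) (pt n')).1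
  refine Nat.le_of_mul_le_mul_right (c := P) ?_ hP
  simp only [Nat.add_mul]
  omega

end IsLine

theorem lines : LinesStmt := by
  intro G _ X E hT P hP Rl N₀ β p1 p2 p3 hc hτ hz hs
  have n0 : (16 : ℝ) ≤ N₀ := by exact_mod_cast (by omega : 16 ≤ N₀)
  set rep : G → G := fun v => Classical.epsilon fun u => IsConj u v ∧ Tame X u 1 16 with hrep
  have r1 : ∀ v g, rep (g * v * g⁻¹) = rep v := fun v g => by
    simp only [hrep]
    congr 1
    funext u
    have : IsConj v (g * v * g⁻¹) := isConj_iff.2 ⟨g, rfl⟩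
    exact propext (and_congr_left' ⟨fun h => h.trans this.symm, fun h => h.trans this⟩)
  have r2 : ∀ v ∈ Rl, IsConj (rep v) v ∧ Tame X (rep v) 1 16 := fun v hv => by
    obtain ⟨x, hx⟩ := exists_tame hT.fp (u := v) (by linarith [hτ v hv])
    refine Classical.epsilon_spec (p := fun u => IsConj u v ∧ Tame X u 1 16)
      ⟨x⁻¹ * v * x⁻¹⁻¹, isConj_iff.2 ⟨x, by group⟩, ?_⟩
    simpa using hx.conj x⁻¹
  choose! γ hγ using fun v hv => isConj_iff.1 (r2 v hv).1
  clear_value rep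
  have g1 : ∀ v ∈ Rl, (γ v)⁻¹ * v * (γ v)⁻¹⁻¹ = rep v := fun v hv => by
    have := hγ v hv
    generalize γ v = x, rep v = y at this
    rw [← this]
    group
  have r3 : ∀ v ∈ Rl, rep v ∈ Rl := fun v hv => g1 v hv ▸ hc v hv _
  have r4 : ∀ v ∈ Rl, 16 ≤ X.τ (rep v) := fun v hv => n0.trans (hτ _ (r3 v hv))
  have r5 : ∀ v ∈ Rl, N₀ ≤ X.ν (rep v) := fun v hv => by
    exact_mod_cast (hτ _ (r3 v hv)).trans (nu_bounds (r2 v hv).2).1
  choose! pt idx hl using fun (u : G) (hu : Tame X u 1 16 ∧ 16 ≤ X.τ u) => exists_line hu.1 hu.2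
  have L : ∀ v ∈ Rl, IsLine X (rep v) (pt (rep v)) (idx (rep v)) := fun v hv =>
    hl _ ⟨(r2 v hv).2, r4 v hv⟩
  have dl : ∀ v ∈ Rl, ∀ g, ∃ a : ℤ, ∀ y,
      (γ (g * v * g⁻¹))⁻¹ * (g * (γ v * y)) = rep v ^ a * y := fun v hv g => by
    have h1 := g1 _ (hc v hv g)
    have h2 := hγ v hv
    rw [r1] at h1
    generalize γ (g * v * g⁻¹) = x' at h1
    generalize γ v = x at h2
    obtain ⟨a, ha⟩ := hz _ (r3 v hv) (x'⁻¹ * g * x) (by
      change _ * _ = _ * _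
      nth_rewrite 2 [← h1]
      nth_rewrite 2 [← h2]
      group)
    exact ⟨a, fun y => by rw [show rep v ^ a = _ from ha]; group⟩
  have on : ∀ v ∈ Rl, ∀ n n' z', ∃ a b : ℤ,
      On X (v ^ a * z') (v ^ b * z') (γ v * pt (rep v) n) (γ v * pt (rep v) n') 300 := by
    intro v hv n n' z'
    obtain ⟨a, b, h1⟩ := (L v hv).on (by have := r5 v hv; omega) n n'
    obtain ⟨a', b', h2⟩ := (r2 v hv).2.axis hT.fp (by linarith [r4 v hv]) ((γ v)⁻¹ * z') a b
    have e : ∀ j : ℤ, γ v * (rep v ^ j * ((γ v)⁻¹ * z')) = v ^ j * z' := fun j => by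
      rw [← mul_assoc, ← mul_assoc, ← conj_zpow, hγ v hv]
    have := (h2.trans h1).mul (γ v)
    rw [e, e] at this
    exact ⟨a', b', this.mono (by omega)⟩
  have P0 : (0 : ℝ) < P := by exact_mod_cast hP
  have P1 : (1000 : ℝ) ≤ P := by exact_mod_cast p1
  refine ⟨
    { X := X.scale P hP
      E₀ := E * P
      st := hT.scale hP (by omega)
      In := fun v => v ∈ Rl
      Y := fun v y => v ∈ Rl ∧ ∃ n, y = γ v * pt (rep v) n
      ι := fun v y => idx (rep v) ((γ v)⁻¹ * y)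
      N := fun v => X.ν (rep v)
      θ := fun v => X.τ (rep v) / X.ν (rep v) / P
      Y_In := fun v y h => h.1
      ex := fun v hv => ⟨_, hv, 0, rfl⟩
      Y_conj := ?_
      ι_conj := ?_
      shift := ?_
      N_conj := fun v g _ => by rw [r1]
      lo := ?_
      hi := ?_
      lox := ?_
      mid := ?_
      cent := fun v a hv => hz v hv a
      small := ?_
      hN := fun v hv => by have := r5 v hv; omega }, rfl, fun _ => Iff.rfl, r5, ?_⟩
  · rintro v g _ ⟨hv, n, rfl⟩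
    obtain ⟨a, ha⟩ := dl v hv g
    exact ⟨hc v hv g, n + a * X.ν (rep v), by rw [r1, (L v hv).sh, ← ha, mul_inv_cancel_left]⟩
  · rintro v g _ _ ⟨hv, n, rfl⟩ ⟨-, n', rfl⟩
    obtain ⟨a, ha⟩ := dl v hv g
    rw [ha, ha, r1, (L v hv).eqv, (L v hv).eqv, inv_mul_cancel_left, inv_mul_cancel_left]
    ring
  · rintro v _ ⟨hv, n, rfl⟩
    have := (L v hv).eqv 1 n
    rw [zpow_one, one_mul] at this
    rw [inv_mul_cancel_left, ← this]
    congr 1
    conv_rhs => rw [← g1 v hv]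
    rw [g1 v hv, ← mul_assoc, ← mul_assoc, ← g1 v hv, inv_inv]
  · rintro v _ _ ⟨hv, n, rfl⟩ ⟨-, n', rfl⟩
    have h1 := (L v hv).lo (idx (rep v) (pt (rep v) n)) (idx (rep v) (pt (rep v) n'))
    rw [(L v hv).sec, (L v hv).sec] at h1
    have h2 : (X.d (pt (rep v) n) (pt (rep v) n') : ℝ)
        ≤ (X.scale P hP).d (pt (rep v) n) (pt (rep v) n') * P := by
      exact_mod_cast (X.scale_d_bounds P hP _ _).1
    rw [inv_mul_cancel_left, inv_mul_cancel_left, Nm.d_mul, ← mul_div_assoc, div_le_iff₀ P0]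
    linarith
  · rintro v _ _ ⟨hv, n, rfl⟩ ⟨-, n', rfl⟩
    have h1 := (L v hv).hi (idx (rep v) (pt (rep v) n)) (idx (rep v) (pt (rep v) n'))
    rw [(L v hv).sec, (L v hv).sec] at h1
    have h2 : ((X.scale P hP).d (pt (rep v) n) (pt (rep v) n') : ℝ) * P
        ≤ X.d (pt (rep v) n) (pt (rep v) n') + P := by
      exact_mod_cast (X.scale_d_bounds P hP _ _).2.le
    rw [inv_mul_cancel_left, inv_mul_cancel_left, Nm.d_mul, ← mul_div_assoc, ← sub_le_iff_le_add,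
      le_div_iff₀ P0]
    linarith
  · intro v hv
    have := theta_ge (r2 v hv).2 (r4 v hv)
    rw [← mul_div_assoc, le_div_iff₀ P0]
    push_cast
    nlinarith
  · rintro v _ _ ⟨hv, n, rfl⟩ ⟨-, n', rfl⟩ hd
    rw [Nm.d_mul] at hd
    obtain ⟨m, h1, h2⟩ := (L v hv).mid hP (by omega) n n' hd
    refine ⟨_, ⟨hv, m, rfl⟩, ?_⟩
    simp only [Nm.d_mul]
    omega
  · rintro v w _ _ _ _ hne ⟨hv, n, rfl⟩ ⟨-, n', rfl⟩ ⟨hw, m, rfl⟩ ⟨-, m', rfl⟩ h
    refine hne (hs v hv w hw fun z z' => ?_)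
    obtain ⟨a, b, h1⟩ := on v hv n n' z
    obtain ⟨a', b', h2⟩ := on w hw m m' z'
    have h3 := (Cr.scale_down (β := 2999) hP h).mono (β' := β + 300 + 300) (by omega)
    refine ⟨_, Subgroup.zpow_mem_zpowers v a, _, Subgroup.zpow_mem_zpowers v b,
      _, Subgroup.zpow_mem_zpowers w a', _, Subgroup.zpow_mem_zpowers w b', ?_⟩
    rw [one_mul, one_mul]
    exact Cr.ext h1 (Cr.ext h2 h3).swap
  · rintro v _ _ ⟨hv, n, rfl⟩ ⟨-, n', rfl⟩ z'
    exact on v hv n n' z'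

end Pool.Agent.MP_5c28a4_al.H88
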